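import Pool.Agent.Helper581.CP.Words

set_option autoImplicit false

namespace Pool.Agent.Results.MP_9b3f3c_al.Unsolvable

/-- A spherically homogeneous rooted tree with vertex type `V`: levels, parent map, root, and
degree sequence `deg`; every vertex of level `n` has exactly `deg n ≥ 2` children. -/
structure SphericalTree (V : Type) where
  /-- the level of a vertex -/
  lev : V → ℕ
  /-- the parent of a vertex; by convention the root is its own parent -/
  par : V → V
  /-- the root -/
  root : V
  /-- the number of children of the vertices of level `n` -/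
  deg : ℕ → ℕ
  lev_eq_zero : ∀ v, lev v = 0 ↔ v = root
  par_root : par root = root
  lev_par : ∀ v, v ≠ root → lev (par v) + 1 = lev v
  two_le_deg : ∀ n, 2 ≤ deg n
  card_children : ∀ v, Nat.card {w : V // w ≠ root ∧ par w = v} = deg (lev v)

/-- `G` is a branch group: it has a faithful action by automorphisms on some spherically
homogeneous rooted tree, transitive on every level, such that for every `n` the subgroup
generated by the rigid stabilizers of the vertices of level `n` has finite index. An element
lies in the rigid stabilizer of `v` when it fixes every vertex outside the subtree below `v`. -/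
def IsBranchGroup (G : Type) [Group G] : Prop :=
  ∃ (V : Type) (T : SphericalTree V) (_ : MulAction G V),
    (∀ (g : G) (v : V), T.lev (g • v) = T.lev v ∧ T.par (g • v) = g • T.par v) ∧
    (∀ g : G, (∀ v : V, g • v = v) → g = 1) ∧
    (∀ v w : V, T.lev v = T.lev w → ∃ g : G, g • v = w) ∧
    ∀ n : ℕ, (Subgroup.closure {g : G | ∃ v : V, T.lev v = n ∧
      ∀ w : V, (¬ ∃ k : ℕ, T.par^[k] w = v) → g • w = w}).FiniteIndex

/-- The element of `G` represented by a word over `s` and its inverses; the letter `(i, true)`
stands for `s i` and `(i, false)` for its inverse. -/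
def wordValue {G : Type} [Group G] {r : ℕ} (s : Fin r → G) (w : List (Fin r × Bool)) : G :=
  (w.map fun p => if p.2 then s p.1 else (s p.1)⁻¹).prod

/-- The word problem with respect to the tuple `s` is decidable. -/
def WordProblemDecidable {G : Type} [Group G] {r : ℕ} (s : Fin r → G) : Prop :=
  ComputablePred fun w : List (Fin r × Bool) => wordValue s w = 1

/-- The conjugacy problem with respect to the tuple `s` is decidable. -/
def ConjugacyProblemDecidable {G : Type} [Group G] {r : ℕ} (s : Fin r → G) : Prop :=
  ComputablePred fun p : List (Fin r × Bool) × List (Fin r × Bool) =>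
    IsConj (wordValue s p.1) (wordValue s p.2)

open Pool.Agent.Helper581.CP Equiv

theorem wordValue_append {G : Type} [Group G] {r : ℕ} (s : Fin r → G)
    (w w' : List (Fin r × Bool)) : wordValue s (w ++ w') = wordValue s w * wordValue s w' := by
  simp [wordValue]

theorem wordValue_surj {G : Type} [Group G] {r : ℕ} (s : Fin r → G)
    (hs : Subgroup.closure (Set.range s) = ⊤) (g : G) : ∃ w, wordValue s w = g := by
  have hg : g ∈ Subgroup.closure (Set.range s) := by rw [hs]; exact Subgroup.mem_top g
  induction hg using Subgroup.closure_induction with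
  | mem g hg =>
    obtain ⟨i, rfl⟩ := hg
    exact ⟨[(i, true)], by simp [wordValue]⟩
  | one => exact ⟨[], rfl⟩
  | mul g h _ _ ihg ihh =>
    obtain ⟨w, rfl⟩ := ihg
    obtain ⟨w', rfl⟩ := ihh
    exact ⟨w ++ w', wordValue_append s w w'⟩
  | inv g _ ih =>
    obtain ⟨w, rfl⟩ := ih
    refine ⟨(w.map fun p => (p.1, !p.2)).reverse, ?_⟩
    clear * -
    induction w with
    | nil => simp [wordValue]
    | cons a w ihw =>
      have h1 : wordValue s (a :: w) = (if a.2 then s a.1 else (s a.1)⁻¹) * wordValue s w := by
        simp [wordValue]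
      rw [List.map_cons, List.reverse_cons, wordValue_append, ihw, h1, mul_inv_rev]
      congr 1
      rcases a with ⟨i, b⟩
      cases b <;> simp [wordValue]

/-- The tree of all words over the five letter alphabet. -/
def tree : SphericalTree W where
  lev := List.length
  par := List.dropLast
  root := []
  deg := fun _ => 5
  lev_eq_zero := fun v => List.length_eq_zero_iff
  par_root := rfl
  lev_par := fun v hv => by
    have := List.length_pos_iff.2 hv
    rw [List.length_dropLast]
    omega
  two_le_deg := fun _ => by norm_num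
  card_children := fun v => by
    have e : {w : W // w ≠ [] ∧ w.dropLast = v} ≃ Fin 5 :=
      { toFun := fun w => w.1.getLast w.2.1
        invFun := fun x => ⟨v ++ [x], by simp, by simp⟩
        left_inv := fun w => by
          obtain ⟨w, hw, rfl⟩ := w
          ext1
          exact List.dropLast_append_getLast hw
        right_inv := fun x => by simp }
    rw [Nat.card_congr e]
    simp

theorem isBranch : IsBranchGroup G := by
  refine ⟨W, tree, inferInstance, ?_, ?_, ?_, ?_⟩
  · intro g v
    exact ⟨Del_length v g.2, Del_dropLast v g.2⟩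
  · intro g h
    ext v : 2
    exact h v
  · intro v w h
    obtain ⟨g, hg, hgv⟩ := trans_Del v 0 w h
    exact ⟨⟨g, hg⟩, hgv⟩
  · intro n
    exact rist_finiteIndex n

/-- a word as an element of the group -/
def evG (l : List La) : G := ⟨ev 0 l, ev_mem 0 l⟩

theorem evG_surj (g : G) : ∃ l, evG l = g := by
  obtain ⟨g, hg⟩ := g
  suffices h : ∃ l, ev 0 l = g by
    obtain ⟨l, hl⟩ := h
    exact ⟨l, Subtype.ext hl⟩
  change g ∈ Subgroup.closure (Set.range rt ∪ Bset 0) at hg
  induction hg using Subgroup.closure_induction with
  | mem g hg =>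
    rcases hg with ⟨a, rfl⟩ | ⟨e, f, hf, rfl⟩
    · exact ⟨[(true, a)], by rw [ev_cons, ev_nil, mul_one]; rfl⟩
    · have h1 : f = 1 := by
        funext i
        exact hf i (Nat.zero_le i)
      exact ⟨[(false, e)], by rw [ev_cons, ev_nil, mul_one, h1]; rfl⟩
  | one => exact ⟨[], rfl⟩
  | mul g h _ _ ihg ihh =>
    obtain ⟨w, rfl⟩ := ihg
    obtain ⟨w', rfl⟩ := ihh
    exact ⟨w ++ w', ev_append 0 w w'⟩
  | inv g _ ih =>
    obtain ⟨w, rfl⟩ := ih
    exact ⟨winv w, ev_winv 0 w⟩

theorem exists_gens : ∃ (r : ℕ) (s : Fin r → G), Subgroup.closure (Set.range s) = ⊤ := by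
  let e := Fintype.equivFin La
  refine ⟨Fintype.card La, fun i => evG [e.symm i], ?_⟩
  rw [eq_top_iff]
  intro g _
  obtain ⟨l, rfl⟩ := evG_surj g
  clear * -
  induction l with
  | nil => exact one_mem _
  | cons a l ih =>
    have h1 : evG (a :: l) = evG [a] * evG l := by
      ext1
      change ev 0 (a :: l) = ev 0 [a] * ev 0 l
      rw [ev_cons, ev_cons, ev_nil, mul_one]
    rw [h1]
    refine mul_mem (Subgroup.subset_closure ⟨e a, ?_⟩) ih
    simp

theorem wp {r : ℕ} (s : Fin r → G) : WordProblemDecidable s := by
  have h1 : ∀ p : Fin r × Bool, ∃ l : List La, evG l = if p.2 then s p.1 else (s p.1)⁻¹ :=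
    fun p => evG_surj _
  choose ψ hψ using h1
  have h2 : ∀ w : List (Fin r × Bool), evG (w.flatMap ψ) = wordValue s w := by
    intro w
    induction w with
    | nil => rfl
    | cons a w ih =>
      have h3 : evG ((a :: w).flatMap ψ) = evG (ψ a) * evG (w.flatMap ψ) := by
        ext1
        exact ev_append 0 _ _
      rw [h3, ih, hψ]
      simp [wordValue]
  have h4 : PrimrecPred fun w : List (Fin r × Bool) => ev 0 (w.flatMap ψ) = 1 :=
    wp_primrec.comp (Primrec.list_flatMap Primrec.id
      ((Primrec.dom_finite ψ).comp₂ Primrec₂.right))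
  have h5 : PrimrecPred fun w : List (Fin r × Bool) => wordValue s w = 1 := by
    refine h4.of_eq fun w => ?_
    rw [← h2]
    constructor
    · intro h; exact Subtype.ext h
    · intro h; exact congrArg Subtype.val h
  obtain ⟨i, h6⟩ := h5
  exact ⟨i, h6.to_comp⟩

/-- conjugacy of the two test elements is equivalent to halting -/
theorem conj_iff_halt (c : Nat.Partrec.Code) :
    IsConj (evG (wd zeta (Encodable.encode c))) (evG (wd (tw zeta) (Encodable.encode c))) ↔
      (Nat.Partrec.Code.eval c 0).Dom := by
  set k := Encodable.encode c with hk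
  set v : W := List.replicate k 0 ++ [1] with hv
  have hvl : v.length = k + 1 := by simp [hv]
  have hcode : ∀ N : ℕ, (Nat.unpair N).1 = k →
      live N = (Nat.Partrec.Code.evaln N c 0).isNone := by
    intro N hN
    unfold live
    rw [hN, hk, Denumerable.ofNat_encode]
  constructor
  · intro h
    by_contra hd
    have hl : ∀ N, (Nat.unpair N).1 = k → live N = true := by
      intro N hN
      rw [hcode N hN, Option.isNone_iff_eq_none, Option.eq_none_iff_forall_not_mem]
      intro x hx
      apply hd
      have := Nat.Partrec.Code.evaln_sound hx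
      exact Part.dom_iff_mem.2 ⟨x, this⟩
    obtain ⟨g, hg⟩ := isConj_iff.1 h
    have h1 : g.1 * ev 0 (wd zeta k) * g.1⁻¹ = ev 0 (wd (tw zeta) k) := congrArg Subtype.val hg
    rw [ev_wd, ev_wd, mul_inv_eq_iff_eq_mul] at h1
    have hne : T (k + 1) k zeta ≠ 1 := by
      intro hc
      rw [← map_one (T (k + 1) k)] at hc
      exact zeta_ne_one (T_injective hl hc)
    obtain ⟨t, ht, h2⟩ := conj_dpath hne g.2 h1
    obtain ⟨m, hm⟩ := Del_U ht
    rw [← hv, hvl] at hm
    exact no_conj hl zeta_ne_one zeta_nonconj m hm h2
  · intro hd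
    obtain ⟨x, hx⟩ := Part.dom_iff_mem.1 hd
    obtain ⟨N0, hN0⟩ := Nat.Partrec.Code.evaln_complete.1 hx
    have hl : ∀ N, N0 ≤ N → (Nat.unpair N).1 = k → live N = false := by
      intro N hN hN2
      have h1 := Nat.Partrec.Code.evaln_mono hN hN0
      rw [hcode N hN2, Option.mem_def.1 h1]
      rfl
    obtain ⟨h, hh, hc⟩ := conj_of_halt hl zeta N0 (k + 1) (by omega)
    rw [isConj_iff]
    have hmem : dpath v h ∈ Del 0 := dpath_mem v (by rw [hvl, zero_add]; exact hh)
    refine ⟨⟨dpath v h, hmem⟩, ?_⟩
    ext1
    change dpath v h * ev 0 (wd zeta k) * (dpath v h)⁻¹ = ev 0 (wd (tw zeta) k)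
    rw [ev_wd, ev_wd, ← hv, ← hc, map_mul, map_mul, map_inv]

theorem cp {r : ℕ} (s : Fin r → G) (hs : Subgroup.closure (Set.range s) = ⊤) :
    ¬ ConjugacyProblemDecidable s := by
  intro hc
  have h1 : ∀ a : La, ∃ w, wordValue s w = evG [a] := fun a => wordValue_surj s hs _
  choose χ hχ using h1
  have h2 : ∀ l : List La, wordValue s (l.flatMap χ) = evG l := by
    intro l
    induction l with
    | nil => rfl
    | cons a l ih =>
      rw [List.flatMap_cons, wordValue_append, ih, hχ]
      ext1
      change ev 0 [a] * ev 0 l = ev 0 (a :: l)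
      rw [ev_cons, ev_cons, ev_nil, mul_one]
  apply ComputablePred.halting_problem 0
  have hF : Computable fun c : Nat.Partrec.Code =>
      ((wd zeta (Encodable.encode c)).flatMap χ, (wd (tw zeta) (Encodable.encode c)).flatMap χ) := by
    have h3 : ∀ e : A, Primrec fun c : Nat.Partrec.Code => (wd e (Encodable.encode c)).flatMap χ :=
      fun e => Primrec.list_flatMap ((primrec_wd e).comp Primrec.encode)
        ((Primrec.dom_finite χ).comp₂ Primrec₂.right)
    exact (Primrec.pair (h3 zeta) (h3 (tw zeta))).to_comp
  refine ComputablePred.computable_of_manyOneReducible ⟨_, hF, fun c => ?_⟩ hc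
  rw [h2, h2]
  exact (conj_iff_halt c).symm

/-- There is a finitely generated branch group in which, for every finite generating tuple, the
word problem is decidable and the conjugacy problem is undecidable. -/
theorem result : ∃ (G : Type) (_ : Group G), IsBranchGroup G ∧
    (∃ (r : ℕ) (s : Fin r → G), Subgroup.closure (Set.range s) = ⊤) ∧
    ∀ (r : ℕ) (s : Fin r → G), Subgroup.closure (Set.range s) = ⊤ →
      WordProblemDecidable s ∧ ¬ ConjugacyProblemDecidable s :=
  ⟨G, inferInstance, isBranch, exists_gens, fun _ s hs => ⟨wp s, cp s hs⟩⟩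

end Pool.Agent.Results.MP_9b3f3c_al.Unsolvable
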